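import Pool.Agent.W442.SN.Base

set_option autoImplicit false

namespace Pool.Agent.W395.SN.CMIso

open Pool.Agent.W442.SN

lemma transport {A B : Type} [CommRing A] [CommRing B] [IsLocalRing A] [IsLocalRing B]
    (f : A ≃+* B)
    (h : ∃ rs : List A, (∀ r ∈ rs, r ∈ IsLocalRing.maximalIdeal A) ∧
      RingTheory.Sequence.IsRegular A rs ∧ (rs.length : WithBot ℕ∞) = ringKrullDim A) :
    ∃ rs : List B, (∀ r ∈ rs, r ∈ IsLocalRing.maximalIdeal B) ∧
      RingTheory.Sequence.IsRegular B rs ∧ (rs.length : WithBot ℕ∞) = ringKrullDim B := by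
  obtain ⟨rs, h1, h2, h3⟩ := h
  refine ⟨rs.map f, ?_, ?_, ?_⟩
  · intro r hr
    obtain ⟨s, hs, rfl⟩ := List.mem_map.1 hr
    have h4 := h1 s hs
    rw [IsLocalRing.mem_maximalIdeal, mem_nonunits_iff] at h4 ⊢
    rwa [MulEquiv.isUnit_map f]
  · have h5 : List.Forall₂ (fun (r : A) (s : B) => ∀ x : A, f.toAddEquiv (r • x) = s • f.toAddEquiv x)
        rs (rs.map f) := by
      rw [List.forall₂_map_right_iff]
      rw [List.forall₂_same]
      intro r _ x
      show f (r * x) = f r * f x
      exact map_mul f r x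
    exact (AddEquiv.isRegular_congr h5).1 h2
  · rw [List.length_map, h3]
    exact ringKrullDim_eq_of_ringEquiv f

theorem main : S_cmiso := by
  intro S T _ _ e hS q hq
  have hp : (q.comap (e : S →+* T)).IsPrime := inferInstance
  have hM : (q.comap (e : S →+* T)).primeCompl.map (e : S ≃* T).toMonoidHom = q.primeCompl := by
    ext x
    rw [Submonoid.mem_map]
    constructor
    · rintro ⟨s, hs, rfl⟩
      exact hs
    · intro hx
      refine ⟨e.symm x, ?_, ?_⟩
      · show ¬ (e (e.symm x) ∈ q)
        rw [e.apply_symm_apply]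
        exact hx
      · exact e.apply_symm_apply x
  exact transport (IsLocalization.ringEquivOfRingEquiv
    (Localization.AtPrime (q.comap (e : S →+* T))) (Localization.AtPrime q) e hM)
    (hS (q.comap (e : S →+* T)))

end Pool.Agent.W395.SN.CMIso
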